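import Pool.Agent.H2.EntDefs
import Pool.Agent.H2.EntRho

set_option autoImplicit false
open Pool.Agent.H2.Ent

namespace Pool.Agent.Results.MP_879d0a_co.Minimum

theorem result :
    (∀ (V : Type) [Fintype V] (G : SimpleGraph V), InClass G → rho K4m ≤ rho G) ∧ InClass K4m ∧
      ∃ r : ℝ, r ^ 3 = r + 2 ∧ rho K4m = ENNReal.ofReal r := by
  obtain ⟨r, hr⟩ := ex_root
  exact ⟨fun V _ G hG => (K_upper hr).trans (lower G hr hG), K_class,
    r, by linarith, le_antisymm (K_upper hr) (lower K4m hr K_class)⟩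

end Pool.Agent.Results.MP_879d0a_co.Minimum
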